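import Pool.Agent.U62.GO.Fin

/-!
# The Frobenius averages of the fibre products of random hyperelliptic pencils form a Gaussian orthogonal ensemble

For `N` random pencils `C_i : Y² = X ^ (2 g_i + 1) + ∑ C_{i,k}(t) X ^ k` of hyperelliptic curves of genera `g_i ≥ 2` over the affine
`t`-line the averages `𝔅_p(C_i × C_j)` over the fibres of the traces of Frobenius on `H²(C_{i,t} × C_{j,t})` have the mean values
`2 p` for `i ≠ j` and `3 p - 1` for `i = j`, and the errors, divided by `√p`, summed over the primes with weights, are jointly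
asymptotically the entries of a symmetric matrix of the Gaussian orthogonal ensemble: independent normal variables of
variance one outside the diagonal and two on the diagonal.
-/

set_option autoImplicit false

namespace Pool.Agent.Results.MP_6090f9_nt.GOELaw

open Finset ProbabilityTheory

variable {N n : ℕ}

/-- The indices of the coefficients: the coefficient of `X ^ k`, `k < 2 g_i + 1`, of the `i`-th equation is a polynomial of degree at most
`n` in `t`. -/
abbrev Index (g : Fin N → ℕ) (n : ℕ) : Type := (Σ i : Fin N, Fin (2 * g i + 1)) × Fin (n + 1)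

/-- The right hand side of the equation `Y² = rhs c i t X` of the fibre over `t` of the `i`-th pencil: monic of degree `2 g_i + 1`
in `X`. -/
def rhs {R : Type} [CommRing R] {g : Fin N → ℕ} (c : Index g n → R) (i : Fin N) (t x : R) : R :=
  x ^ (2 * g i + 1) + ∑ k : Fin (2 * g i + 1), (∑ j : Fin (n + 1), c (⟨i, k⟩, j) * t ^ (j : ℕ)) * x ^ (k : ℕ)

/-- The number of the affine points modulo `p` of the fibre over `t` of the `i`-th pencil. -/
noncomputable def points {g : Fin N → ℕ} (c : Index g n → ℤ) (i : Fin N) (p t : ℕ) : ℕ :=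
  Nat.card {P : ZMod p × ZMod p // P.2 ^ 2 = rhs (fun k => (c k : ZMod p)) i (t : ZMod p) P.1}

/-- The trace of Frobenius `p + 1 - #C_{i,t}(F_p)` (with one point at infinity). -/
noncomputable def trace {g : Fin N → ℕ} (c : Index g n → ℤ) (i : Fin N) (p t : ℕ) : ℝ :=
  ((p : ℝ) + 1) - ((points c i p t : ℝ) + 1)

/-- The average `𝔅_p` over the fibres (over the affine line) of the trace of Frobenius `2 p + a_p(C_{i,t}) a_p(C_{j,t})` on
`H²(C_{i,t} × C_{j,t})` (Künneth). -/
noncomputable def average {g : Fin N → ℕ} (c : Index g n → ℤ) (i j : Fin N) (p : ℕ) : ℝ :=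
  (∑ t ∈ range p, (2 * (p : ℝ) + trace c i p t * trace c j p t)) / p

/-- The mean value. -/
noncomputable def meanValue (i j : Fin N) (p : ℕ) : ℝ := if i = j then 3 * p - 1 else 2 * p

/-- The variances of the entries of a matrix of the Gaussian orthogonal ensemble. -/
noncomputable def variance (i j : Fin N) : ℝ := if i = j then 2 else 1

/-- The proportion of the integer vectors `c` with coordinates of absolute value at most `H` which have the property `Q`. -/
noncomputable def proportion {g : Fin N → ℕ} (H : ℕ) (Q : (Index g n → ℤ) → Prop) : ℝ :=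
  ({c : Index g n → ℤ | (∀ i, |c i| ≤ H) ∧ Q c}.ncard : ℝ) / (2 * H + 1 : ℝ) ^ Fintype.card (Index g n)

/-- The distribution function of the standard normal law. -/
noncomputable def normal (u : ℝ) : ℝ := (gaussianReal 0 1).real (Set.Iic u)

theorem count_odd (p : ℕ) [hp : Fact p.Prime] (h2 : p ≠ 2) (f : ZMod p → ZMod p) :
    (Nat.card {P : ZMod p × ZMod p // P.2 ^ 2 = f P.1} : ℝ) = p + ∑ x, (quadraticChar (ZMod p) (f x) : ℝ) := by
  have hr : ringChar (ZMod p) ≠ 2 := by rwa [ZMod.ringChar_zmod_n]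
  have e1 : {P : ZMod p × ZMod p // P.2 ^ 2 = f P.1} ≃ Σ x : ZMod p, {y : ZMod p // y ^ 2 = f x} :=
    { toFun := fun P => ⟨P.1.1, P.1.2, P.2⟩
      invFun := fun Q => ⟨(Q.1, Q.2.1), Q.2.2⟩
      left_inv := fun _ => rfl
      right_inv := fun _ => rfl }
  rw [Nat.card_congr e1, Nat.card_sigma]
  push_cast
  simp only [Pool.Agent.N647.NG.card_sqrt hr]
  rw [Finset.sum_add_distrib, Finset.sum_const, card_univ, ZMod.card, nsmul_eq_mul, mul_one]
  rfl

theorem sq_two : ∀ y : ZMod 2, y ^ 2 = y := by decide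

theorem count_two (f : ZMod 2 → ZMod 2) : Nat.card {P : ZMod 2 × ZMod 2 // P.2 ^ 2 = f P.1} = 2 := by
  have e1 : {P : ZMod 2 × ZMod 2 // P.2 ^ 2 = f P.1} ≃ ZMod 2 :=
    { toFun := fun P => P.1.1
      invFun := fun x => ⟨(x, f x), sq_two _⟩
      left_inv := fun P => by
        apply Subtype.ext
        apply Prod.ext
        · rfl
        · show f P.1.1 = P.1.2
          rw [← P.2, sq_two]
      right_inv := fun _ => rfl }
  rw [Nat.card_congr e1, Nat.card_zmod]

open Pool.Agent.U62.NG Pool.Agent.U62.GO in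
theorem points_eq {g : Fin N → ℕ} (c : Index g n → ℤ) (i : Fin N) (p t : ℕ) [hp : Fact p.Prime] (h2 : p ≠ 2) :
    (points c i p t : ℝ) = p + hh (m := dg g) i (vt (Pool.Agent.Y722.HS.red p c) (t : ZMod p)) :=
  count_odd p h2 _

theorem points_two {g : Fin N → ℕ} (c : Index g n → ℤ) (i : Fin N) (t : ℕ) : points c i 2 t = 2 :=
  count_two _

open Pool.Agent.U62.NG Pool.Agent.U62.GO in
theorem average_eq {g : Fin N → ℕ} (c : Index g n → ℤ) (a : Pr N) (p : ℕ) (hp : p.Prime) :
    (average c a.1.1 a.1.2 p - meanValue a.1.1 a.1.2 p) / √p = UG g a p (Pool.Agent.Y722.HS.red p c) := by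
  have hp0 : (0 : ℝ) < p := by exact_mod_cast hp.pos
  have hs : 0 < √(p : ℝ) := Real.sqrt_pos.2 hp0
  have hc : ∀ b : ℝ, ∑ _t ∈ range p, b = p * b := fun b => by rw [Finset.sum_const, card_range, nsmul_eq_mul]
  by_cases h2 : p = 2
  · subst h2
    rw [UG_two]
    unfold average trace meanValue
    simp only [points_two]
    by_cases h : a.1.1 = a.1.2
    · rw [if_pos h, if_pos h]
      norm_num
      ring
    · rw [if_neg h, if_neg h]
      norm_num
  · have : Fact p.Prime := ⟨hp⟩
    rw [UG_eq g a p h2]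
    have e : ∀ t : ℕ, trace c a.1.1 p t * trace c a.1.2 p t =
        hh (m := dg g) a.1.1 (vt (Pool.Agent.Y722.HS.red p c) (t : ZMod p)) *
        hh (m := dg g) a.1.2 (vt (Pool.Agent.Y722.HS.red p c) (t : ZMod p)) := by
      intro t
      unfold trace
      rw [points_eq c _ p t h2, points_eq c _ p t h2]
      ring
    have e2 : ∑ t : ZMod p, ZZ (m := dg g) a.1.1 a.1.2 (vt (Pool.Agent.Y722.HS.red p c) t) =
        ∑ t ∈ range p, ZZ (m := dg g) a.1.1 a.1.2 (vt (Pool.Agent.Y722.HS.red p c) (t : ZMod p)) := by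
      symm
      refine Finset.sum_bij (fun t _ => (t : ZMod p)) (fun _ _ => mem_univ _) ?_ ?_ fun _ _ => rfl
      · intro a ha b hb hab
        rw [ZMod.natCast_eq_natCast_iff] at hab
        exact Nat.ModEq.eq_of_lt_of_lt hab (mem_range.1 ha) (mem_range.1 hb)
      · intro z _
        exact ⟨z.val, mem_range.2 (ZMod.val_lt z), ZMod.natCast_zmod_val z⟩
    rw [e2]
    unfold average ZZ meanValue
    simp only [e]
    rw [Finset.sum_add_distrib, Finset.sum_sub_distrib, hc, hc, ZMod.card]
    split_ifs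
    · field_simp
      ring
    · field_simp
      ring

open Pool.Agent.U62.GO in
theorem prod_pairs (F : Fin N → Fin N → ℝ) :
    ∏ a : Pr N, F a.1.1 a.1.2 = ∏ i, ∏ j ∈ univ.filter (fun j => i ≤ j), F i j := by
  have h : ∏ a ∈ (univ.filter fun a : Fin N × Fin N => a.1 ≤ a.2), F a.1 a.2 = ∏ a : Pr N, F a.1.1 a.1.2 :=
    Finset.prod_subtype (univ.filter fun a : Fin N × Fin N => a.1 ≤ a.2) (fun a => by simp) (fun a => F a.1 a.2)
  rw [← h, Finset.prod_filter, Fintype.prod_prod_type]
  refine Finset.prod_congr rfl fun i _ => ?_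
  rw [Finset.prod_filter]

/-- **The Gaussian orthogonal ensemble of the Frobenius averages.** Let `g_i ≥ 2` (`i < N`) and `n ≥ 3`. For all real `u_ij` and
`ε > 0` there is a `K` such that
(1) for every finite set `P` of primes `p ≤ y`, all weights `|w_p| ≤ 1` with `∑ w_p² ≥ K` and all `H ≥ y ^ K` the proportion of the
integer coefficients `|c| ≤ H` with `∑ w_p (𝔅_p(C_i × C_j) - (2 p or 3 p - 1)) / √p ≤ u_ij √((1 + δ_ij) ∑ w_p²)` for all `i ≤ j`
differs from `∏_{i ≤ j} Φ(u_ij)` by at most `ε`;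
(2) for `T ≥ K`, `H ≥ T ^ K` the same holds for the conditions `∑_{p ≤ T} 𝔅_p(C_i × C_j) (log p) / p ≤
∑_{p ≤ T} (2 p or 3 p - 1) (log p) / p + u_ij √(1 + δ_ij) (log T) / √2`. -/
theorem result (N n : ℕ) (g : Fin N → ℕ) (hg : ∀ i, 2 ≤ g i) (hn : 3 ≤ n) :
    (∀ (u : Fin N → Fin N → ℝ) (ε : ℝ), 0 < ε → ∃ K : ℕ, ∀ (P : Finset ℕ) (w : ℕ → ℝ) (y H : ℕ),
      (∀ p ∈ P, p.Prime ∧ p ≤ y) → (∀ p ∈ P, |w p| ≤ 1) → K ≤ ∑ p ∈ P, w p ^ 2 → y ^ K ≤ H →
      |proportion H (fun c : Index g n → ℤ => ∀ i j, i ≤ j →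
        ∑ p ∈ P, w p * ((average c i j p - meanValue i j p) / √p) ≤ u i j * √(variance i j * ∑ p ∈ P, w p ^ 2)) -
        ∏ i, ∏ j ∈ univ.filter (fun j => i ≤ j), normal (u i j)| ≤ ε) ∧
    (∀ (u : Fin N → Fin N → ℝ) (ε : ℝ), 0 < ε → ∃ K : ℕ, ∀ T H : ℕ, K ≤ T → T ^ K ≤ H →
      |proportion H (fun c : Index g n → ℤ => ∀ i j, i ≤ j →
        ∑ p ∈ (range (T + 1)).filter Nat.Prime, Real.log p / p * average c i j p ≤
          ∑ p ∈ (range (T + 1)).filter Nat.Prime, Real.log p / p * meanValue i j p +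
            u i j * √(variance i j) * (Real.log T / √2)) -
        ∏ i, ∏ j ∈ univ.filter (fun j => i ≤ j), normal (u i j)| ≤ ε) := by
  refine ⟨fun u ε hε => ?_, fun u ε hε => ?_⟩
  · obtain ⟨K, hK1, hK⟩ := Pool.Agent.U62.GO.goe_gen (D := n + 1) (by omega) g hg (fun a => u a.1.1 a.1.2) hε
    refine ⟨K, fun P w y H hP hw hvar hH => ?_⟩
    have hK0 : (1 : ℝ) ≤ K := by exact_mod_cast hK1
    have hy : 1 ≤ y := by
      by_contra hy
      have hy0 : y = 0 := by omega
      have : P = ∅ := by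
        rw [Finset.eq_empty_iff_forall_notMem]
        intro p hp
        have h1 := (hP p hp).2
        have h2 := (hP p hp).1.pos
        omega
      rw [this, Finset.sum_empty] at hvar
      linarith
    have h := hK P w (∑ p ∈ P, w p ^ 2) y H hP hy hw hvar (by
      rw [sub_self, abs_zero]
      positivity) hH
    refine le_trans (le_of_eq ?_) h
    unfold proportion normal
    rw [← prod_pairs (fun i j => (gaussianReal 0 1).real (Set.Iic (u i j)))]
    congr 3
    congr 2
    ext c
    simp only [Set.mem_ofPred_eq]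
    refine and_congr_right fun _ => ?_
    have key : ∀ a : Pool.Agent.U62.GO.Pr N,
        (∑ p ∈ P, w p * ((average c a.1.1 a.1.2 p - meanValue a.1.1 a.1.2 p) / √p) ≤
          u a.1.1 a.1.2 * √(variance a.1.1 a.1.2 * ∑ p ∈ P, w p ^ 2)) ↔
        (∑ p ∈ P, w p * Pool.Agent.U62.GO.UG g a p (Pool.Agent.Y722.HS.red p c) ≤
          u a.1.1 a.1.2 * (√(Pool.Agent.U62.GO.sg a) * √(∑ p ∈ P, w p ^ 2))) := by
      intro a
      rw [Finset.sum_congr rfl fun p hp => by rw [average_eq c a p (hP p hp).1]]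
      have e : √(variance a.1.1 a.1.2 * ∑ p ∈ P, w p ^ 2) = √(Pool.Agent.U62.GO.sg a) * √(∑ p ∈ P, w p ^ 2) := by
        have : variance a.1.1 a.1.2 = Pool.Agent.U62.GO.sg a := rfl
        rw [this, Real.sqrt_mul (by
          have := Pool.Agent.U62.GO.sg_one a
          linarith)]
      rw [e]
    constructor
    · intro h1 a
      exact (key a).1 (h1 a.1.1 a.1.2 a.2)
    · intro h1 i j hij
      exact (key ⟨(i, j), hij⟩).2 (h1 ⟨(i, j), hij⟩)
  · obtain ⟨K, hK⟩ := Pool.Agent.U62.GO.goe_log (D := n + 1) (by omega) g hg (fun a => u a.1.1 a.1.2) hε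
    refine ⟨K, fun T H hT hH => ?_⟩
    have h := hK T H hT hH
    refine le_trans (le_of_eq ?_) h
    unfold proportion normal
    rw [← prod_pairs (fun i j => (gaussianReal 0 1).real (Set.Iic (u i j)))]
    congr 3
    congr 2
    ext c
    simp only [Set.mem_ofPred_eq]
    refine and_congr_right fun _ => ?_
    have key : ∀ a : Pool.Agent.U62.GO.Pr N,
        (∑ p ∈ (range (T + 1)).filter Nat.Prime, Real.log p / p * average c a.1.1 a.1.2 p ≤
          ∑ p ∈ (range (T + 1)).filter Nat.Prime, Real.log p / p * meanValue a.1.1 a.1.2 p +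
            u a.1.1 a.1.2 * √(variance a.1.1 a.1.2) * (Real.log T / √2)) ↔
        (∑ p ∈ Pool.Agent.U62.CL.PT T, Real.log p / √p * Pool.Agent.U62.GO.UG g a p (Pool.Agent.Y722.HS.red p c) ≤
          u a.1.1 a.1.2 * √(Pool.Agent.U62.GO.sg a) * (Real.log T / √2)) := by
      intro a
      have e : ∑ p ∈ Pool.Agent.U62.CL.PT T, Real.log p / √p *
          Pool.Agent.U62.GO.UG g a p (Pool.Agent.Y722.HS.red p c) =
          ∑ p ∈ (range (T + 1)).filter Nat.Prime, Real.log p / p * average c a.1.1 a.1.2 p -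
          ∑ p ∈ (range (T + 1)).filter Nat.Prime, Real.log p / p * meanValue a.1.1 a.1.2 p := by
        rw [← Finset.sum_sub_distrib]
        refine Finset.sum_congr rfl fun p hp => ?_
        have hpp := (Finset.mem_filter.1 hp).2
        have hp0 : (0 : ℝ) < p := by exact_mod_cast hpp.pos
        rw [← average_eq c a p hpp]
        have hss : √(p : ℝ) * √(p : ℝ) = p := Real.mul_self_sqrt hp0.le
        rw [div_mul_div_comm, hss]
        ring
      rw [e]
      have e2 : variance a.1.1 a.1.2 = Pool.Agent.U62.GO.sg a := rfl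
      rw [e2]
      constructor <;> intro h <;> linarith
    constructor
    · intro h1 a
      exact (key a).1 (h1 a.1.1 a.1.2 a.2)
    · intro h1 i j hij
      exact (key ⟨(i, j), hij⟩).2 (h1 ⟨(i, j), hij⟩)

end Pool.Agent.Results.MP_6090f9_nt.GOELaw
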