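import Pool.Agent.U437.JS.Main

/-!
# The residue formula for the surfaces `h(w) f(x₀, x₁) = g(x₂, x₃)` in `ℙ³`

Let `M` be a finitely generated field of characteristic zero and of transcendence degree `d` over `ℚ`,
which contains the number field `k`, and let `K = M(w)` be the field of rational functions over `M`: the
function field of a variety over `k` of dimension `d + 1`.  Let `n ≥ 1`, let `f` and `g` be two separable
polynomials of degree `n` over `M`, and let `h ∈ M[w]` be divisible by a polynomial `π` of positive degree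
without multiple roots exactly `e` times (`h = π^e ρ` with coprime `π` and `ρ`), where `e` is prime to `n`;
for instance, `h` may be any squarefree polynomial of positive degree.  Let `X ⊆ ℙ³` be the smooth surface
over `K` with the equation

  `h(w) f(x₀, x₁) = g(x₂, x₃)`,

where `f(x, y) = y^n f(x / y)` is the binary form attached to `f`.  (All the binary forms of degree `n`
without multiple factors are of this form after a linear substitution, up to a constant factor, which may
be put into `h`.)  It is a surface of degree `n`: a K3 surface for `n = 4`, and a surface of general type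
for `n ≥ 5`.  It contains the `n²` lines `L_{x, y}`: `x₀ = x x₁`, `x₂ = y x₃`, where `f(x) = 0`, `g(y) = 0`.

The analytic side: for every model of `K` and of the surface over the integers of `k`, the series of the
averages `𝔅_v` of the traces of the Frobenius on `H²` of the smooth fibres has a residue at `s = 2`, and this
remains true with the same residue if a bounded function is added to `𝔅_v`: the contribution of the bad
fibres of any smooth projective model is such a function, since there are `O(q^d)` of them, and the traces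
are `O(q)`.

The algebraic side: the residue is the rank of the group of the divisors over `K` supported on the lines,
up to numerical equivalence, and this rank is `2 + c(f, g) - c(f) - c(g)`, where `c(f)` is the number of the
closed points of the scheme `f = 0` over `M`, and `c(f, g)` is the number of the closed points of the scheme
`f(x) = g(y) = 0`.

This rank is the rank of `NS(X/K)` (this is not formalised here): over the algebraic closure of `M`, the
group `μ_n` acts on the surface with `h = 1`; `X` is its twist by the `n`-th roots of `h`, and the Kummer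
character of `h` generates the characters of order `n` of the absolute Galois group of `M̄(w)`; hence the
invariants of this Galois group in `NS(X) ⊗ ℚ` are those of `μ_n`, and they are spanned by the `n²` lines, as
`H²(X)^{μ_n}` is of dimension `(n - 1)² + 1`, which is the rank of the intersection form on the lines.
-/

set_option autoImplicit false

namespace Pool.Agent.Results.MP_6090f9_nt.JoinSurfaces

open Polynomial NumberField IsDedekindDomain
open Pool.Agent.Y707.PR (HasResidue)

/-- The rank of a bilinear form. -/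
noncomputable def rankForm {V : Type} [AddCommGroup V] [Module ℚ V] (B : LinearMap.BilinForm ℚ V) : ℕ :=
  Module.finrank ℚ (LinearMap.range B)

section Algebra
variable {M : Type} [Field M]

/-- The roots of `f` in the algebraic closure of `M`. -/
abbrev Roots (f : M[X]) : Type := f.rootSet (AlgebraicClosure M)

/-- The pairs `(x, y)`, `(x', y')` of roots, that is, the lines `L_{x, y}`, `L_{x', y'}`, are conjugate. -/
def Conjugate {f g : M[X]} (p p' : Roots f × Roots g) : Prop :=
  ∃ σ : AlgebraicClosure M ≃ₐ[M] AlgebraicClosure M, σ p.1.1 = p'.1.1 ∧ σ p.2.1 = p'.2.1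

/-- The divisors `∑ u(x, y) L_{x, y}` with rational coefficients which are defined over `K`. -/
def Divisors (f g : M[X]) : Submodule ℚ (Roots f × Roots g → ℚ) where
  carrier := {u | ∀ p p', Conjugate p p' → u p = u p'}
  add_mem' := fun {u v} hu hv p p' h => by
    show u p + v p = u p' + v p'
    rw [hu p p' h, hv p p' h]
  zero_mem' := fun _ _ _ => rfl
  smul_mem' := fun c u hu p p' h => by
    show c * u p = c * u p'
    rw [hu p p' h]

open Classical in
/-- The intersection number of the lines `L_{x, y}` and `L_{x', y'}` on a smooth surface of degree `n`: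
`2 - n` if they are equal, `1` if they are different and meet, that is, `x = x'` or `y = y'`, and `0`
otherwise. -/
noncomputable def lineDot {f g : M[X]} (n : ℕ) (p p' : Roots f × Roots g) : ℚ :=
  if p = p' then 2 - n else if p.1 = p'.1 ∨ p.2 = p'.2 then 1 else 0

open Classical in
/-- The intersection form on the divisors over `K` supported on the lines. -/
noncomputable def interForm (n : ℕ) (f g : M[X]) : LinearMap.BilinForm ℚ (Divisors f g) :=
  (Matrix.toBilin' (Matrix.of fun p p' : Roots f × Roots g => lineDot n p p')).restrict (Divisors f g)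

/-- The rank of the group of the divisors over `K` supported on the lines, up to numerical equivalence among
them: the rank of the intersection form. -/
noncomputable def lineRank (n : ℕ) (f g : M[X]) : ℕ := rankForm (interForm n f g)

/-- The monic irreducible factors of `f`: for a field `M`, the closed points of the scheme `f = 0`. -/
def Factors {A : Type} [CommRing A] (f : A[X]) : Type := {δ : A[X] // δ.Monic ∧ Irreducible δ ∧ δ ∣ f}

/-- The number of the closed points of the scheme `f = 0`. -/
noncomputable def closed (f : M[X]) : ℕ := Nat.card (Factors f)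

/-- The number of the closed points of the scheme `f(x) = g(y) = 0`: the pairs of a monic irreducible factor
`δ` of `f` and a monic irreducible factor of `g` over the field `M[x] / δ`. -/
noncomputable def closedPairs (f g : M[X]) : ℕ :=
  Nat.card (Σ δ : Factors f, Factors (g.map (AdjoinRoot.of δ.1)))

end Algebra

open Classical in
theorem interForm_apply {M : Type} [Field M] {f g : M[X]} (n : ℕ) (u v : Divisors f g) :
    interForm n f g u v = Pool.Agent.U437.JS.inter n u.1 v.1 := by
  unfold interForm Pool.Agent.U437.JS.inter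
  show Matrix.toBilin' _ u.1 v.1 = _
  rw [Matrix.toBilin'_apply]
  refine Finset.sum_congr rfl fun p _ => Finset.sum_congr rfl fun p' _ => ?_
  rw [Matrix.of_apply]
  have h : lineDot n p p' = Pool.Agent.U437.JS.lin n p p' := by
    unfold lineDot Pool.Agent.U437.JS.lin
    by_cases h1 : p = p'
    · rw [if_pos h1, if_pos h1]
    · rw [if_neg h1, if_neg h1]
      by_cases h2 : p.1 = p'.1 ∨ p.2 = p'.2
      · rw [if_pos h2, if_pos h2]
      · rw [if_neg h2, if_neg h2]
  rw [h]
  ring

theorem lineRank_eq {M : Type} [Field M] (n : ℕ) (f g : M[X]) : lineRank n f g = Module.finrank ℚ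
    (Pool.Agent.U437.JS.inv (Pool.Agent.U437.JS.c2' f g) ⧸
      Pool.Agent.U437.JS.nt (Pool.Agent.U437.JS.c2' f g) n) := by
  have h1 : Divisors f g = Pool.Agent.U437.JS.inv (Pool.Agent.U437.JS.c2' f g) := by
    ext u
    rfl
  unfold lineRank rankForm
  rw [← (LinearMap.quotKerEquivRange (interForm n f g)).finrank_eq]
  refine (Submodule.Quotient.equiv _ _ (LinearEquiv.ofEq _ _ h1) ?_).finrank_eq
  ext u
  rw [Submodule.mem_map]
  constructor
  · rintro ⟨u', hu', rfl⟩ v
    have h2 := LinearMap.congr_fun (LinearMap.mem_ker.1 hu') ⟨v.1, v.2⟩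
    exact (interForm_apply n u' ⟨v.1, v.2⟩).symm.trans h2
  · intro hu
    refine ⟨⟨u.1, u.2⟩, LinearMap.mem_ker.2 (LinearMap.ext fun v => ?_), rfl⟩
    exact (interForm_apply n ⟨u.1, u.2⟩ v).trans (hu ⟨v.1, v.2⟩)

/-- The value `f(x, y) = ∑ f_j x^j y^{n-j}` of the binary form of degree `n` attached to `f`. -/
noncomputable def form {R : Type} [CommRing R] (n : ℕ) (f : R[X]) (x y : R) : R :=
  ∑ j ∈ Finset.range (n + 1), f.coeff j * x ^ j * y ^ (n - j)

/-- The number of the points over `F` of the surface `a f(x₀, x₁) = g(x₂, x₃)` in `ℙ³`. -/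
noncomputable def points (F : Type) [Field F] (n : ℕ) (a : F) (f g : F[X]) : ℕ :=
  Nat.card {P : Projectivization F (Fin 4 → F) //
    a * form n f (P.rep 0) (P.rep 1) = form n g (P.rep 2) (P.rep 3)}

/-- The trace of the Frobenius on `H²` of this surface, `#X(F) - 1 - q²`, if it is smooth
(`H¹ = H³ = 0`). -/
noncomputable def traceTwo (F : Type) [Field F] (n : ℕ) (a : F) (f g : F[X]) : ℝ :=
  (points F n a f g : ℝ) - 1 - (Nat.card F : ℝ) ^ 2

/-- The good points of `Spec R` above `v`, rational over the residue field of `v`: those at which `N` and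
`η` do not vanish, and `f` and `g` remain separable. -/
def IsGood {k R : Type} [Field k] [NumberField k] [CommRing R] [Algebra (𝓞 k) R] (η : R) (f g : R[X])
    (N : R) (v : HeightOneSpectrum (𝓞 k)) (φ : R →+* 𝓞 k ⧸ v.asIdeal) : Prop :=
  φ.comp (algebraMap (𝓞 k) R) = Ideal.Quotient.mk v.asIdeal ∧ φ N ≠ 0 ∧ φ η ≠ 0 ∧
    (f.map φ).Separable ∧ (g.map φ).Separable

/-- The average `𝔅_v = q_v^{-m} ∑ b(fibre)` of the traces on `H²` of the surfaces `η f(x₀, x₁) = g(x₂, x₃)`
over the good points above `v` (the fibre is smooth if `v` does not divide `n`). -/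
noncomputable def average {k R : Type} [Field k] [NumberField k] [CommRing R] [Algebra (𝓞 k) R]
    (n : ℕ) (η : R) (f g : R[X]) (N : R) (m : ℕ) (v : HeightOneSpectrum (𝓞 k)) : ℝ :=
  ((Nat.card (𝓞 k ⧸ v.asIdeal) : ℝ) ^ m)⁻¹ *
    ∑ᶠ φ : {φ : R →+* 𝓞 k ⧸ v.asIdeal // IsGood η f g N v φ},
      traceTwo (𝓞 k ⧸ v.asIdeal) n (φ.1 η) (f.map φ.1) (g.map φ.1)

/-- `R` is a model of `K` over the integers of `k`, and `η f' = g'` is a model of the surface
`h(w) f = g`. -/
structure IsModel {k M K R : Type} [Field k] [NumberField k] [Field M] [Algebra k M] [Field K]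
    [Algebra M K] [CommRing R] [Algebra R K] [Algebra (𝓞 k) R] (w : K) (h f g : M[X]) (η : R)
    (f' g' : R[X]) : Prop where
  base : ∀ z : 𝓞 k, algebraMap R K (algebraMap (𝓞 k) R z) = algebraMap M K (algebraMap k M z)
  hη : algebraMap R K η = aeval w h
  hf : f'.map (algebraMap R K) = f.map (algebraMap M K)
  hg : g'.map (algebraMap R K) = g.map (algebraMap M K)

/-- **The residue formula for the surfaces `h(w) f(x₀, x₁) = g(x₂, x₃)` over `M(w)`, for an arbitrary
finitely generated field `M` of characteristic zero and for every model.** -/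
theorem result {k : Type} [Field k] [NumberField k] {M : Type} [Field M] [CharZero M] [Algebra k M]
    (hM : ∃ S : Finset M, Subfield.closure (S : Set M) = ⊤) {d : ℕ} (hd : Algebra.trdeg ℚ M = d)
    {K : Type} [Field K] [CharZero K] [Algebra M K] {w : K} (hw : Transcendental M w)
    (hK : IntermediateField.adjoin M {w} = ⊤)
    {n : ℕ} (hn : 1 ≤ n) {f g : M[X]} (hf : f.Monic) (hfn : f.natDegree = n) (hfs : f.Separable)
    (hg : g.Monic) (hgn : g.natDegree = n) (hgs : g.Separable)
    {h π ρ : M[X]} {e : ℕ} (hh : h = π ^ e * ρ) (hπ : π.Separable) (hπ₁ : 1 ≤ π.natDegree)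
    (hπρ : IsCoprime π ρ) (he : e.Coprime n) :
    Algebra.trdeg ℚ K = (d + 1 : ℕ) ∧
    -- the algebraic side
    (lineRank n f g : ℤ) = 2 + closedPairs f g - closed f - closed g ∧
    -- the analytic side: the residue at `s = 2`, for every model
    ∀ (R : Type) [CommRing R] [IsDomain R] [Algebra.FiniteType ℤ R] [Algebra R K]
      [IsFractionRing R K] [Algebra (𝓞 k) R] (η : R) (f' g' : R[X]),
      IsModel (k := k) w h f g η f' g' → ∀ N : R, N ≠ 0 → ∀ S : Finset (HeightOneSpectrum (𝓞 k)),
        ∀ E : HeightOneSpectrum (𝓞 k) → ℝ, (∃ B, ∀ v, |E v| ≤ B) →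
          HasResidue S (fun v => average n η f' g' N (d + 1) v + E v) 2 (lineRank n f g) := by
  have hn0 : n ≠ 0 := by omega
  have hrank : (lineRank n f g : ℤ) = 2 + closedPairs f g - closed f - closed g := by
    rw [lineRank_eq]
    exact Pool.Agent.U437.JS.rank_lines hfs hgs hn0 hfn hgn
  refine ⟨Pool.Agent.R410.NG.trdeg_line hd hw hK, hrank, ?_⟩
  intro R _ _ _ _ _ _ η f' g' ⟨hk, hη, hf', hg'⟩ N hN S E hE
  obtain ⟨B, hB⟩ := hE
  -- monic factors
  have hπ0 : π ≠ 0 := hπ.ne_zero
  have hρ0 : ρ ≠ 0 := by
    rintro rfl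
    rw [isCoprime_zero_right] at hπρ
    have := natDegree_eq_zero_of_isUnit hπρ
    omega
  have hlπ : π.leadingCoeff ≠ 0 := leadingCoeff_ne_zero.2 hπ0
  have hlρ : ρ.leadingCoeff ≠ 0 := leadingCoeff_ne_zero.2 hρ0
  have eπ : π = C π.leadingCoeff * (π * C π.leadingCoeff⁻¹) := by
    rw [mul_left_comm, ← C_mul, mul_inv_cancel₀ hlπ, C_1, mul_one]
  have eρ : ρ = C ρ.leadingCoeff * (ρ * C ρ.leadingCoeff⁻¹) := by
    rw [mul_left_comm, ← C_mul, mul_inv_cancel₀ hlρ, C_1, mul_one]
  have hassπ : Associated π (π * C π.leadingCoeff⁻¹) :=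
    (associated_mul_unit_right π _ (isUnit_C.2 (isUnit_iff_ne_zero.2 (inv_ne_zero hlπ))))
  have hassρ : Associated ρ (ρ * C ρ.leadingCoeff⁻¹) :=
    (associated_mul_unit_right ρ _ (isUnit_C.2 (isUnit_iff_ne_zero.2 (inv_ne_zero hlρ))))
  have hh' : h = C (π.leadingCoeff ^ e * ρ.leadingCoeff) *
      ((π * C π.leadingCoeff⁻¹) ^ e * (ρ * C ρ.leadingCoeff⁻¹)) := by
    rw [hh]
    conv_lhs => rw [eπ, eρ]
    rw [mul_pow, C_mul, C_pow]
    ring
  have h1 := Pool.Agent.U437.JS.residue_one (k := k) hM hd hw hK hn0 hf hfn hfs hg hgn hgs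
    (π := π * C π.leadingCoeff⁻¹) (ρ := ρ * C ρ.leadingCoeff⁻¹)
    (monic_mul_leadingCoeff_inv hπ0) (hπ.of_dvd hassπ.symm.dvd)
    (by rw [natDegree_mul_C (inv_ne_zero hlπ)]; omega) (monic_mul_leadingCoeff_inv hρ0)
    ((hπρ.of_isCoprime_of_dvd_left hassπ.symm.dvd).of_isCoprime_of_dvd_right hassρ.symm.dvd) he
    (c := π.leadingCoeff ^ e * ρ.leadingCoeff) (mul_ne_zero (pow_ne_zero _ hlπ) hlρ) R hk
    (fR := f') (gR := g') (η := η) hf' hg' (by rw [hη, hh']) hN S
  have h2 := Pool.Agent.R410.NG.residue_add (Pool.Agent.R410.NG.residue_shift h1)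
    (Pool.Agent.U437.JS.residue_bdd (S := S) hB)
  have h3 : (((2 + Pool.Agent.U437.JS.cc2 f g - Pool.Agent.U437.JS.cc f -
      Pool.Agent.U437.JS.cc g : ℤ) : ℝ) + 0) = (lineRank n f g : ℝ) := by
    have h4 : ((lineRank n f g : ℤ) : ℝ) = ((2 + Pool.Agent.U437.JS.cc2 f g -
      Pool.Agent.U437.JS.cc f - Pool.Agent.U437.JS.cc g : ℤ) : ℝ) := congrArg _ hrank
    rw [add_zero, ← h4]
    push_cast
    rfl
  rw [h3] at h2
  convert h2 using 2 with v
  congr 1
  exact Pool.Agent.U437.JS.avg_eq n η N f' g' (d + 1) v

end Pool.Agent.Results.MP_6090f9_nt.JoinSurfaces
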