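import Pool.Agent.U581.WW.Wt
import Pool.Agent.U62.GO.Fin

/-!
# The Frobenius averages of the fibre products of random hyperelliptic pencils, as a process in the primes, are a Brownian motion
# in the symmetric matrices

For `N` random pencils `C_i : Y² = X ^ (2 g_i + 1) + ∑ C_{i,k}(t) X ^ k` of hyperelliptic curves of genera `g_i ≥ 2` over the affine
`t`-line the averages `𝔅_p(C_i × C_j)` over the fibres of the traces of Frobenius on `H²(C_{i,t} × C_{j,t})` have the mean values
`2 p` for `i ≠ j` and `3 p - 1` for `i = j`. We consider the partial sums, in the order of the primes, of the errors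
`w_p (𝔅_p(C_i × C_j) - (2 p or 3 p - 1)) / √p` with weights `w_p`, as a random continuous path in the symmetric `N × N`
matrices, run by the clock `∑ w_p²`. The theorem: for `H ≥ y ^ K`, `K → ∞`, the path converges in distribution, in the space of the
matrices of continuous functions on `[0, 1]`, to the Brownian motion in the symmetric matrices for which the law at every time is
a multiple of the Gaussian orthogonal ensemble: the entries `(i, j)`, `i ≤ j`, are independent Brownian motions, multiplied by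
`√2` on the diagonal. It contains the case of the sums `∑_{p ≤ x} (𝔅_p - (2 p or 3 p - 1)) (log p) / p`, `x ≤ T`, the partial
sums of the residue in question. This is a law for the whole development in `x` (for instance of the maxima over
`x ≤ T` of these sums, or of their largest eigenvalue), not only for the final value.
-/

set_option autoImplicit false

namespace Pool.Agent.Results.MP_6090f9_nt.MatrixBrownianMotion

open Finset MeasureTheory ProbabilityTheory
open scoped BoundedContinuousFunction NNReal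

variable {N n : ℕ}

/-- The indices of the coefficients: the coefficient of `X ^ k`, `k < 2 g_i + 1`, of the `i`-th equation is a polynomial of degree at most
`n` in `t`. -/
abbrev Index (g : Fin N → ℕ) (n : ℕ) : Type := (Σ i : Fin N, Fin (2 * g i + 1)) × Fin (n + 1)

/-- The right hand side of the equation `Y² = rhs c i t X` of the fibre over `t` of the `i`-th pencil: monic of degree `2 g_i + 1`
in `X`. -/
def rhs {R : Type} [CommRing R] {g : Fin N → ℕ} (c : Index g n → R) (i : Fin N) (t x : R) : R :=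
  x ^ (2 * g i + 1) + ∑ k : Fin (2 * g i + 1), (∑ j : Fin (n + 1), c (⟨i, k⟩, j) * t ^ (j : ℕ)) * x ^ (k : ℕ)

/-- The number of the affine points modulo `p` of the fibre over `t` of the `i`-th pencil. -/
noncomputable def points {g : Fin N → ℕ} (c : Index g n → ℤ) (i : Fin N) (p t : ℕ) : ℕ :=
  Nat.card {P : ZMod p × ZMod p // P.2 ^ 2 = rhs (fun k => (c k : ZMod p)) i (t : ZMod p) P.1}

/-- The trace of Frobenius `p + 1 - #C_{i,t}(F_p)` (with one point at infinity). -/
noncomputable def trace {g : Fin N → ℕ} (c : Index g n → ℤ) (i : Fin N) (p t : ℕ) : ℝ :=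
  ((p : ℝ) + 1) - ((points c i p t : ℝ) + 1)

/-- The average `𝔅_p` over the fibres (over the affine line) of the trace of Frobenius `2 p + a_p(C_{i,t}) a_p(C_{j,t})` on
`H²(C_{i,t} × C_{j,t})` (Künneth). -/
noncomputable def average {g : Fin N → ℕ} (c : Index g n → ℤ) (i j : Fin N) (p : ℕ) : ℝ :=
  (∑ t ∈ range p, (2 * (p : ℝ) + trace c i p t * trace c j p t)) / p

/-- The mean value. -/
noncomputable def meanValue (i j : Fin N) (p : ℕ) : ℝ := if i = j then 3 * p - 1 else 2 * p

/-- The error, divided by `√p`. -/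
noncomputable def error {g : Fin N → ℕ} (c : Index g n → ℤ) (i j : Fin N) (p : ℕ) : ℝ :=
  (average c i j p - meanValue i j p) / √p

/-- The variances of the entries of a matrix of the Gaussian orthogonal ensemble. -/
noncomputable def variance (i j : Fin N) : ℝ := if i = j then 2 else 1

/-- The polygonal path of the partial sums of the `w_p g_p`, `p ∈ P`, run by the clock `w_p²`: with `V = ∑_{q ∈ P} w_q²` it has at
the times `∑_{q ∈ P, q < p} w_q² / V`, `p ∈ P`, the values `∑_{q ∈ P, q < p} w_q g_q / √V`, at the time `1` the value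
`∑_{q ∈ P} w_q g_q / √V`, and is linear in between. -/
noncomputable def path (P : Finset ℕ) (w g : ℕ → ℝ) : C(unitInterval, ℝ) where
  toFun t := (∑ p ∈ P, w p * g p * max 0 (min 1 ((t * (∑ q ∈ P, w q ^ 2) -
    ∑ q ∈ P.filter (fun q => q < p), w q ^ 2) / w p ^ 2))) / √(∑ q ∈ P, w q ^ 2)
  continuous_toFun := by fun_prop

/-- The mean value of `f` over the integer vectors `c` with coordinates of absolute value at most `H`. -/
noncomputable def boxMean {g : Fin N → ℕ} (H : ℕ) (f : (Index g n → ℤ) → ℝ) : ℝ :=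
  (∑ c ∈ Fintype.piFinset (fun _ : Index g n => Finset.Icc (-(H : ℤ)) H), f c) /
    (2 * H + 1 : ℝ) ^ Fintype.card (Index g n)

/-- The path of `B` on `[0, 1]` as a continuous function (and `0` if it is not continuous). -/
noncomputable def unitPath {Ω : Type} (B : ℝ≥0 → Ω → ℝ) (ω : Ω) : C(unitInterval, ℝ) :=
  ContinuousMap.mkD (fun t : unitInterval => B ⟨(t : ℝ), t.2.1⟩ ω) 0

/-- The symmetric matrix of the paths with the entries `√(1 + δ_ij) B_ij`, `i ≤ j`. -/
noncomputable def symmetricPath {Ω : Type} (B : Fin N → Fin N → ℝ≥0 → Ω → ℝ) (ω : Ω) (i j : Fin N) : C(unitInterval, ℝ) :=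
  √(variance i j) • unitPath (B (min i j) (max i j)) ω

theorem count_odd (p : ℕ) [hp : Fact p.Prime] (h2 : p ≠ 2) (f : ZMod p → ZMod p) :
    (Nat.card {P : ZMod p × ZMod p // P.2 ^ 2 = f P.1} : ℝ) = p + ∑ x, (quadraticChar (ZMod p) (f x) : ℝ) := by
  have hr : ringChar (ZMod p) ≠ 2 := by rwa [ZMod.ringChar_zmod_n]
  have e1 : {P : ZMod p × ZMod p // P.2 ^ 2 = f P.1} ≃ Σ x : ZMod p, {y : ZMod p // y ^ 2 = f x} :=
    { toFun := fun P => ⟨P.1.1, P.1.2, P.2⟩
      invFun := fun Q => ⟨(Q.1, Q.2.1), Q.2.2⟩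
      left_inv := fun _ => rfl
      right_inv := fun _ => rfl }
  rw [Nat.card_congr e1, Nat.card_sigma]
  push_cast
  simp only [Pool.Agent.N647.NG.card_sqrt hr]
  rw [Finset.sum_add_distrib, Finset.sum_const, card_univ, ZMod.card, nsmul_eq_mul, mul_one]
  rfl

theorem sq_two : ∀ y : ZMod 2, y ^ 2 = y := by decide

theorem count_two (f : ZMod 2 → ZMod 2) : Nat.card {P : ZMod 2 × ZMod 2 // P.2 ^ 2 = f P.1} = 2 := by
  have e1 : {P : ZMod 2 × ZMod 2 // P.2 ^ 2 = f P.1} ≃ ZMod 2 :=
    { toFun := fun P => P.1.1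
      invFun := fun x => ⟨(x, f x), sq_two _⟩
      left_inv := fun P => by
        apply Subtype.ext
        apply Prod.ext
        · rfl
        · show f P.1.1 = P.1.2
          rw [← P.2, sq_two]
      right_inv := fun _ => rfl }
  rw [Nat.card_congr e1, Nat.card_zmod]

open Pool.Agent.U62.NG Pool.Agent.U62.GO in
theorem points_eq {g : Fin N → ℕ} (c : Index g n → ℤ) (i : Fin N) (p t : ℕ) [hp : Fact p.Prime] (h2 : p ≠ 2) :
    (points c i p t : ℝ) = p + hh (m := dg g) i (vt (Pool.Agent.Y722.HS.red p c) (t : ZMod p)) :=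
  count_odd p h2 _

theorem points_two {g : Fin N → ℕ} (c : Index g n → ℤ) (i : Fin N) (t : ℕ) : points c i 2 t = 2 :=
  count_two _

open Pool.Agent.U62.NG Pool.Agent.U62.GO in
theorem error_eq {g : Fin N → ℕ} (c : Index g n → ℤ) (a : Pr N) (p : ℕ) (hp : p.Prime) :
    error c a.1.1 a.1.2 p = UG g a p (Pool.Agent.Y722.HS.red p c) := by
  unfold error
  have hp0 : (0 : ℝ) < p := by exact_mod_cast hp.pos
  have hs : 0 < √(p : ℝ) := Real.sqrt_pos.2 hp0
  have hc : ∀ b : ℝ, ∑ _t ∈ range p, b = p * b := fun b => by rw [Finset.sum_const, card_range, nsmul_eq_mul]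
  by_cases h2 : p = 2
  · subst h2
    rw [UG_two]
    unfold average trace meanValue
    simp only [points_two]
    by_cases h : a.1.1 = a.1.2
    · rw [if_pos h, if_pos h]
      norm_num
      ring
    · rw [if_neg h, if_neg h]
      norm_num
  · have : Fact p.Prime := ⟨hp⟩
    rw [UG_eq g a p h2]
    have e : ∀ t : ℕ, trace c a.1.1 p t * trace c a.1.2 p t =
        hh (m := dg g) a.1.1 (vt (Pool.Agent.Y722.HS.red p c) (t : ZMod p)) *
        hh (m := dg g) a.1.2 (vt (Pool.Agent.Y722.HS.red p c) (t : ZMod p)) := by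
      intro t
      unfold trace
      rw [points_eq c _ p t h2, points_eq c _ p t h2]
      ring
    have e2 : ∑ t : ZMod p, ZZ (m := dg g) a.1.1 a.1.2 (vt (Pool.Agent.Y722.HS.red p c) t) =
        ∑ t ∈ range p, ZZ (m := dg g) a.1.1 a.1.2 (vt (Pool.Agent.Y722.HS.red p c) (t : ZMod p)) := by
      symm
      refine Finset.sum_bij (fun t _ => (t : ZMod p)) (fun _ _ => mem_univ _) ?_ ?_ fun _ _ => rfl
      · intro a ha b hb hab
        rw [ZMod.natCast_eq_natCast_iff] at hab
        exact Nat.ModEq.eq_of_lt_of_lt hab (mem_range.1 ha) (mem_range.1 hb)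
      · intro z _
        exact ⟨z.val, mem_range.2 (ZMod.val_lt z), ZMod.natCast_zmod_val z⟩
    rw [e2]
    unfold average ZZ meanValue
    simp only [e]
    rw [Finset.sum_add_distrib, Finset.sum_sub_distrib, hc, hc, ZMod.card]
    split_ifs
    · field_simp
      ring
    · field_simp
      ring

theorem error_symm {g : Fin N → ℕ} (c : Index g n → ℤ) (i j : Fin N) (p : ℕ) : error c i j p = error c j i p := by
  unfold error average meanValue
  have e : (i = j) = (j = i) := propext eq_comm
  simp only [e, mul_comm (trace c i p _)]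

/-- The ordered pair. -/
def pair (i j : Fin N) : Pool.Agent.U62.GO.Pr N := ⟨(min i j, max i j), min_le_max⟩

theorem error_pair {g : Fin N → ℕ} (c : Index g n → ℤ) (i j : Fin N) (p : ℕ) :
    error c i j p = error c (pair i j).1.1 (pair i j).1.2 p := by
  unfold pair
  rcases le_total i j with h | h
  · simp only [min_eq_left h, max_eq_right h]
  · simp only [min_eq_right h, max_eq_left h]
    exact error_symm c i j p

theorem variance_pair (i j : Fin N) : variance i j = Pool.Agent.U62.GO.sg (pair i j) := by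
  unfold variance Pool.Agent.U62.GO.sg pair
  rcases le_total i j with h | h
  · simp only [min_eq_left h, max_eq_right h]
  · simp only [min_eq_right h, max_eq_left h]
    have e : (i = j) = (j = i) := propext eq_comm
    simp only [e]

open Pool.Agent.U62.GO Pool.Agent.U62.NG in
theorem UG_bound {D : ℕ} (g : Fin N → ℕ) (a : Pr N) (p : ℕ) (hp : p.Prime) (c : Vx (dg g) × Fin D → ZMod p) :
    |UG g a p c| ≤ BB g * √p := by
  have hB := BB_one g
  have hp0 : (0 : ℝ) < p := by exact_mod_cast hp.pos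
  by_cases h2 : p = 2
  · subst h2
    refine (UG_two_le g a c).trans ?_
    have h1 : 1 ≤ √((2 : ℕ) : ℝ) := Real.one_le_sqrt.2 (by norm_num)
    nlinarith
  · have : Fact p.Prime := ⟨hp⟩
    have hK : ringChar (ZMod p) ≠ 2 := by rwa [ZMod.ringChar_zmod_n]
    have hs : 0 < √(p : ℝ) := Real.sqrt_pos.2 hp0
    rw [UG_eq g a p h2, abs_mul, abs_of_nonneg (by positivity)]
    have h1 : |∑ t : ZMod p, ZZ (m := dg g) a.1.1 a.1.2 (vt c t)| ≤ p * (BB g * p) := by
      refine (Finset.abs_sum_le_sum_abs _ _).trans ?_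
      calc ∑ t : ZMod p, |ZZ (m := dg g) a.1.1 a.1.2 (vt c t)| ≤ ∑ _t : ZMod p, BB g * p := by
            refine Finset.sum_le_sum fun t _ => ?_
            have := ZZ_le hK g a.1.1 a.1.2 (vt c t)
            rwa [ZMod.card] at this
        _ = _ := by rw [Finset.sum_const, card_univ, ZMod.card, nsmul_eq_mul]
    calc 1 / (p * √(p : ℝ)) * |∑ t : ZMod p, ZZ (m := dg g) a.1.1 a.1.2 (vt c t)|
        ≤ 1 / (p * √(p : ℝ)) * (p * (BB g * p)) := mul_le_mul_of_nonneg_left h1 (by positivity)
      _ = BB g * (p / √p) := by field_simp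
      _ = BB g * √p := by rw [Real.div_sqrt]

theorem path_eq (P : Finset ℕ) (w g : ℕ → ℝ) :
    path P w g = Pool.Agent.U581.WW.wpath P (fun p => w p ^ 2) (fun p => w p * g p) := rfl

theorem wpath_smul (P : Finset ℕ) (v g : ℕ → ℝ) (s : ℝ) :
    s • Pool.Agent.U581.WW.wpath P v g = Pool.Agent.U581.WW.wpath P v (fun p => s * g p) := by
  ext t
  rw [ContinuousMap.smul_apply, Pool.Agent.U581.WW.wpath_apply, Pool.Agent.U581.WW.wpath_apply, smul_eq_mul,
    ← mul_div_assoc, Finset.mul_sum]
  congr 1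
  exact Finset.sum_congr rfl fun p _ => by ring

/-- **The Brownian motion of the Frobenius averages in the symmetric matrices.** Let `g_i ≥ 2` (`i < N`) and `n ≥ 3`, let `B_ij`,
`i ≤ j < N`, be independent Brownian motions, `F` a bounded continuous function on the space of the `N × N` matrices of
continuous functions on `[0, 1]`, `ε > 0`. There is a `K` such that
(1) for every finite set `P` of primes `p ≤ y`, all weights with `K w_p² ≤ ∑_{q ∈ P} w_q²`, `∑ w_q² > 0`, and all `y ≥ K`,
`H ≥ y ^ K` the mean value over the integer coefficients `|c| ≤ H` of `F` of the matrix of the paths of the partial sums of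
`w_p (𝔅_p(C_i × C_j) - (2 p or 3 p - 1)) / √p` differs by at most `ε` from the mean value of `F` of the symmetric matrix with the
entries `√(1 + δ_ij) B_ij`, `i ≤ j`;
(2) for `T ≥ K`, `H ≥ T ^ K` this holds for the primes `p ≤ T` and the weights `(log p) / √p`, that is for the sums
`∑_{p ≤ x} (𝔅_p - (2 p or 3 p - 1)) (log p) / p`, `x ≤ T`. -/
theorem result (N n : ℕ) (g : Fin N → ℕ) (hg : ∀ i, 2 ≤ g i) (hn : 3 ≤ n)
    (Ω : Type) [MeasurableSpace Ω] (μ : Measure Ω) [IsProbabilityMeasure μ] (B : Fin N → Fin N → ℝ≥0 → Ω → ℝ)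
    (hB : ∀ i j, i ≤ j → IsBrownianReal (B i j) μ)
    (hI : iIndepFun (fun (a : {a : Fin N × Fin N // a.1 ≤ a.2}) ω s => B a.1.1 a.1.2 s ω) μ)
    (F : (Fin N → Fin N → C(unitInterval, ℝ)) →ᵇ ℝ) (ε : ℝ) (hε : 0 < ε) :
    (∃ K : ℕ, ∀ (P : Finset ℕ) (w : ℕ → ℝ) (y H : ℕ), (∀ p ∈ P, p.Prime ∧ p ≤ y) → K ≤ y → y ^ K ≤ H →
      0 < ∑ q ∈ P, w q ^ 2 → (∀ p ∈ P, K * w p ^ 2 ≤ ∑ q ∈ P, w q ^ 2) →
      |boxMean H (fun c : Index g n → ℤ => F (fun i j => path P w (error c i j))) -
        ∫ ω, F (symmetricPath B ω) ∂μ| ≤ ε) ∧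
    (∃ K : ℕ, ∀ T H : ℕ, K ≤ T → T ^ K ≤ H →
      |boxMean H (fun c : Index g n → ℤ => F (fun i j =>
        path ((range (T + 1)).filter Nat.Prime) (fun p => Real.log p / √p) (error c i j))) -
        ∫ ω, F (symmetricPath B ω) ∂μ| ≤ ε) := by
  have main : ∃ K : ℕ, ∀ (P : Finset ℕ) (w : ℕ → ℝ) (y H : ℕ), (∀ p ∈ P, p.Prime ∧ p ≤ y) → K ≤ y → y ^ K ≤ H →
      0 < ∑ q ∈ P, w q ^ 2 → (∀ p ∈ P, K * w p ^ 2 ≤ ∑ q ∈ P, w q ^ 2) →
      |boxMean H (fun c : Index g n → ℤ => F (fun i j => path P w (error c i j))) -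
        ∫ ω, F (symmetricPath B ω) ∂μ| ≤ ε := by
    classical
    let _ : MeasurableSpace C(unitInterval, ℝ) := borel _
    have _ : BorelSpace C(unitInterval, ℝ) := ⟨rfl⟩
    obtain ⟨C, hC⟩ := Pool.Agent.U62.GO.ld_UG (D := n + 1) (by omega) g hg
    set e : Pool.Agent.U62.GO.Pr N ≃ Fin (Fintype.card (Pool.Agent.U62.GO.Pr N)) := Fintype.equivFin _ with he
    have hC' : Pool.Agent.U62.CL.LDs (ι := Pool.Agent.U62.GO.Vx (Pool.Agent.U62.GO.dg g) × Fin (n + 1))
        (fun a => Pool.Agent.U62.GO.UG g (e.symm a)) (fun _ => 0)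
        (fun a b => Pool.Agent.U62.GO.gg (e.symm a) (e.symm b)) C :=
      ⟨hC.C1, fun a p hp _ => hC.m1 _ p hp, fun a b p hp _ => hC.m2 _ _ p hp, fun a p hp _ => hC.m4 _ p hp⟩
    have hW : Pool.Agent.U581.FL.IndBrown (fun a => B (e.symm a).1.1 (e.symm a).1.2) μ := by
      refine ⟨fun a => hB _ _ (e.symm a).2, ?_⟩
      exact hI.precomp e.symm.injective
    let Φ : C(Fin (Fintype.card (Pool.Agent.U62.GO.Pr N)) → C(unitInterval, ℝ), Fin N → Fin N → C(unitInterval, ℝ)) :=
      ⟨fun X i j => √(variance i j) • X (e (pair i j)), by fun_prop⟩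
    obtain ⟨K, hK⟩ := Pool.Agent.U581.WW.orth_main hC' (fun a => by
        have h1 := hC.C1
        rw [abs_zero]
        exact le_trans zero_le_one h1)
      (fun a => Pool.Agent.U62.GO.sg (e.symm a)) (fun a => Pool.Agent.U62.GO.sg_one _)
      (fun a b => by
        by_cases hab : a = b
        · subst hab
          rw [if_pos rfl]
          unfold Pool.Agent.U62.GO.gg Pool.Agent.U62.GO.sg
          rw [if_pos rfl]
        · rw [if_neg hab]
          unfold Pool.Agent.U62.GO.gg
          rw [if_neg (fun h => hab (e.symm.injective h))])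
      (fun a p hp x => UG_bound g (e.symm a) p hp x) hW (F.compContinuous Φ) hε
    refine ⟨K, fun P w y H hP hy hH hV hw => ?_⟩
    have h1 := hK P w y H hP hy hH hV hw
    have e3 : ∫ ω, (F.compContinuous Φ) (fun a => Pool.Agent.U581.BM.bpath
        (B (e.symm a).1.1 (e.symm a).1.2) ω) ∂μ = ∫ ω, F (symmetricPath B ω) ∂μ := by
      congr 1
      funext ω
      change F _ = F _
      congr 1
      funext i j
      change √(variance i j) • Pool.Agent.U581.BM.bpath (B (e.symm (e (pair i j))).1.1 (e.symm (e (pair i j))).1.2) ω = _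
      rw [Equiv.symm_apply_apply]
      rfl
    rw [e3] at h1
    refine le_trans (le_of_eq ?_) h1
    congr 2
    unfold boxMean Pool.Agent.Y722.HS.EB
    congr 1
    refine Finset.sum_congr rfl fun c _ => ?_
    change F _ = F _
    congr 1
    funext i j
    change path P w (error c i j) = √(variance i j) • Pool.Agent.U581.WW.wpath P (fun p => w p ^ 2) (fun p =>
      w p / √(Pool.Agent.U62.GO.sg (e.symm (e (pair i j)))) *
        (Pool.Agent.U62.GO.UG g (e.symm (e (pair i j))) p (Pool.Agent.Y722.HS.red p c) - 0))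
    rw [Equiv.symm_apply_apply, wpath_smul, path_eq]
    have hs : 0 < √(Pool.Agent.U62.GO.sg (pair i j)) := Real.sqrt_pos.2 (by
      have := Pool.Agent.U62.GO.sg_one (pair i j)
      linarith)
    ext t
    rw [Pool.Agent.U581.WW.wpath_apply, Pool.Agent.U581.WW.wpath_apply]
    congr 1
    refine Finset.sum_congr rfl fun p hp => ?_
    rw [error_pair, error_eq c (pair i j) p (hP p hp).1, variance_pair]
    field_simp
    ring
  refine ⟨main, ?_⟩
  obtain ⟨K, hK⟩ := main
  obtain ⟨N0, hN0⟩ := Pool.Agent.U62.CL.diag (ε := 1 / 4) (by norm_num)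
  obtain ⟨N1, hN1⟩ : ∃ N1 : ℕ, ∀ M : ℕ, N1 ≤ M → 16 * (K : ℝ) + 1 ≤ Real.log M := by
    have h3 := (Real.tendsto_log_atTop.comp tendsto_natCast_atTop_atTop).eventually_ge_atTop (16 * (K : ℝ) + 1)
    exact Filter.eventually_atTop.1 h3
  refine ⟨max (K + 1) (max N0 N1), fun T H hT hH => ?_⟩
  have hTK : K ≤ max (K + 1) (max N0 N1) := (Nat.le_succ K).trans (le_max_left _ _)
  have hT1 : 1 ≤ T := by
    have := (le_max_left (K + 1) (max N0 N1)).trans hT
    omega
  have h0 := hN0 T (((le_max_left _ _).trans (le_max_right _ _)).trans hT)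
  have h1 := hN1 T (((le_max_right _ _).trans (le_max_right _ _)).trans hT)
  have hK0 : (0 : ℝ) ≤ K := Nat.cast_nonneg K
  have hsum : ∑ q ∈ (range (T + 1)).filter Nat.Prime, (Real.log q / √(q : ℝ)) ^ 2 =
      ∑ p ∈ Pool.Agent.U62.CL.PT T, Real.log p * (Real.log p / p) := by
    refine Finset.sum_congr rfl fun p _ => ?_
    rw [div_pow, Real.sq_sqrt (Nat.cast_nonneg p)]
    ring
  have hbig : 4 * (K : ℝ) + 1 / 4 ≤ ∑ q ∈ (range (T + 1)).filter Nat.Prime, (Real.log q / √(q : ℝ)) ^ 2 := by
    rw [hsum]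
    have h2 := (abs_le.1 h0).1
    nlinarith
  refine hK _ _ T H (fun p hp => ?_) (hTK.trans hT) ((Nat.pow_le_pow_right hT1 hTK).trans hH) (by linarith)
    (fun p hp => ?_)
  · rw [Finset.mem_filter, Finset.mem_range] at hp
    exact ⟨hp.2, by omega⟩
  · have hp1 : 1 ≤ p := (Finset.mem_filter.1 hp).2.one_lt.le
    have hp1r : (1 : ℝ) ≤ p := by exact_mod_cast hp1
    have hs : 0 < √(p : ℝ) := Real.sqrt_pos.2 (by linarith)
    have hl : 0 ≤ Real.log p := Real.log_nonneg hp1r
    have h2 : Real.log p / √(p : ℝ) ≤ 2 := by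
      rw [div_le_iff₀ hs]
      have h := Real.log_le_sub_one_of_pos hs
      rw [Real.log_sqrt (by linarith)] at h
      linarith
    have h3 : 0 ≤ Real.log p / √(p : ℝ) := by positivity
    have h4 : (Real.log p / √(p : ℝ)) ^ 2 ≤ 4 := by nlinarith
    nlinarith

end Pool.Agent.Results.MP_6090f9_nt.MatrixBrownianMotion
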