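import Pool.Agent.U187.TN.Full

/-!
# The residue formula for `H²` averages: constant factors with modular Albanese variety

Let `f : 𝒳 → 𝒴` be an arbitrary fibration over a number field `K`, and `Z` a smooth projective,
geometrically connected variety over `K`.  The fibre of `𝒳 × Z → 𝒴` over `t` is `X_t × Z`, and the rank
of `NS(X × Z / K(𝒴))` is the sum of the ranks of `NS(X / K(𝒴))`, `NS(Z / K(𝒴))` and of
`Hom_{K(𝒴)}(Alb Z, P_X)`, which is the rank of `Hom_K(Alb Z, B)`, `B` the Chow trace of `X`.  So the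
question, for the three fibrations `𝒳 × Z → 𝒴`, `𝒳 → 𝒴` and `Z × 𝒴 → 𝒴`, predicts that the difference
`D(s)` of the functions `(s - 1) ∑ 𝔅_v (log q_v) q_v^{-s-1}` tends to the rank of `Hom_K(Alb Z, B)` for
`s → 1+`.  In a family of varieties `Z_i` without common isogeny factors of the Albanese varieties this
rank is zero for almost all `i`.

Here `Z` runs through the varieties over `K` whose Albanese variety is modular: `H¹(Z)` is a sum of
Galois representations of newforms of weight two, restricted to `K`, with arbitrary multiplicities; for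
example all modular curves `X_0(N)` and the curves covered by them, of arbitrary genus.

We prove that for a family `Z_i` without common newforms the lower limits `c_i` of `D_i(s)` for
`s → 1+`, over all `i` where they are positive, satisfy `∑ c_i² / w_i ≤ [K : ℚ] ρ`, where
`w_i = ∑_x m_i(x)²` (for `K = ℚ` the rank of `End(Alb Z_i)`), and the same is true for the upper limits,
where they are negative; here `ρ` is the upper residue of `∑ 𝔄_v² (log q_v) q_v^{-s-1}`, `𝔄_v` the
fibre average on `H¹`, which is at most `(2 dim B)²`, as `𝔄_v = a_v(B) + O(1)`.  If the `w_i` are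
bounded, then for every `δ > 0` all but finitely many `D_i(s)` come below `δ` and above `-δ`
arbitrarily near to `s = 1`; so the formula of the question cannot fail, by a fixed amount and in the
same direction, for more than finitely many of the `𝒳 × Z_i → 𝒴`, if it is true for `f` and the
`Z_i × 𝒴 → 𝒴`.  Nothing is assumed on the fibration, on the existence of the residues or on analytic
continuation.

The proof uses the one-sided orthogonality of the newforms over number fields and Bessel's inequality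
(`Pool.Agent.Y722.RS`, `Pool.Agent.Y149.LN`, `Pool.Agent.U187.NS`).  The definitions are in
`Pool.Agent.U187.TN.Defs2`, `Pool.Agent.U187.TN.Defs`, `Pool.Agent.U187.NS.Defs`,
`Pool.Agent.U187.MF.Defs` (`IsNewforms`), `Pool.Agent.W353.FB.Defs` (`Fibration`,
`degreeTwoValue`, `IsSystem`, `residue`) and `Pool.Agent.W353.EF.Defs` (`IsFrobenius`).
-/

set_option autoImplicit false

namespace Pool.Agent.Results.MP_6090f9_nt.ModularConstantFactors

open NumberField IsDedekindDomain Filter Topology CongruenceSubgroup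
open scoped MatrixGroups
open Pool.Agent.U187.MF (IsNewforms)
open Pool.Agent.U187.NS (VarK IsNewformSum)
open Pool.Agent.W353.FB (Fibration residue)
open Pool.Agent.U187.TN

/-- **The `H²` averages of products with constant modular varieties.**  Let `f : 𝒳 → 𝒴` be a
fibration over the number field `K`, and let `F_x`, `x ∈ Ω`, be pairwise different newforms of weight
two, for example all of them.  Let `A v` be the fibre averages of the traces on `H¹` at the primes
`v ∉ R₀`, with `|A v| ≤ C q_v^{1/2}`, and let `ρ` be at least the upper limit for `s → 1+` of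
`(s - 1) ∑ A_v² (log q_v) q_v^{-s-1}`.
1. There are functions `s_x(ε)`, `x ∈ Ω`, such that for every finite set `J` of newforms, `η > 0` and all
small `ε > 0` the sum of the `s_x(ε)²` over the `x ∈ J` with `s_x(ε) > 0` is at most `[K : ℚ] ρ + η`,
and so is the sum over the `x ∈ J` with `s_x(ε) < 0`.  For every smooth connected variety `Z` over `K`
such that `H¹(Z)` is a sum of the newforms `F_x` with multiplicities `m(x)`, the limits for `ε → 0` of
`∑_x m(x) s_x(ε)` lie between the lower and the upper limit for `s → 1+` of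
`D(s) = N'(s) - N(s) - N''(s)`, for the functions `(s - 1) ∑ 𝔅_v (log q_v) q_v^{-s-1}` of the fibrations
`𝒳 × Z → 𝒴`, `𝒳 → 𝒴` and `Z × 𝒴 → 𝒴`.
2. Let `Z_i`, `i ∈ I`, be such varieties, with multiplicities `m_i`, every newform occurring in at most
`M` of them, let `w_i = ∑_x m_i(x)²` and `D_i` the function `D` for `Z_i`.  If `J` is finite, `c_i ≥ 0`
and the lower limit of `D_i` is at least `c_i` for all `i ∈ J`, or the upper limit of `D_i` is at most
`-c_i` for all `i ∈ J`, then the sum of the `c_i² / w_i` over `J` is at most `M [K : ℚ] ρ`.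
3. For every `w` and `δ > 0` there are at most `2 M [K : ℚ] ρ w / δ²` indices `i` with `w_i ≤ w` such
that the lower limit of `D_i` is at least `δ` or the upper limit of `D_i` is at most `-δ`. -/
theorem result (K : Type) [Field K] [NumberField K] {Ω : Type} (L : Ω → ℕ)
    (F : ∀ x, CuspForm (Gamma0 (L x) : Subgroup (GL (Fin 2) ℝ)) 2) (hF : IsNewforms L F)
    (f : Fibration K) (R₀ : Finset (HeightOneSpectrum (𝓞 K)))
    (A : HeightOneSpectrum (𝓞 K) → ℝ) (hA : IsAverages f R₀ A) (ρ : ℝ)
    (hρ : UpperLE (𝓝[>] 1) (residue R₀ fun v => A v ^ 2 / (Ideal.absNorm v.asIdeal : ℝ)) ρ) :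
    (∃ s : Ω → ℝ → ℝ,
      (∀ (J : Finset Ω) (η : ℝ), 0 < η → ∀ᶠ ε : ℝ in 𝓝[>] 0,
        ∑ x ∈ J, (max (s x ε) 0) ^ 2 ≤ Module.finrank ℚ K * ρ + η ∧
        ∑ x ∈ J, (max (-s x ε) 0) ^ 2 ≤ Module.finrank ℚ K * ρ + η) ∧
      ∀ (Z : VarK K) (m : Ω →₀ ℕ), IsSmoothConnected Z → IsNewformSum F Z m →
        ∀ D, IsTwoDeviation f Z D → ∀ c : ℝ,
        (LowerGE (𝓝[>] 1) D c → ∀ η : ℝ, 0 < η → ∀ᶠ ε : ℝ in 𝓝[>] 0,
          c - η ≤ m.sum fun x k => (k : ℝ) * s x ε) ∧
        (UpperLE (𝓝[>] 1) D c → ∀ η : ℝ, 0 < η → ∀ᶠ ε : ℝ in 𝓝[>] 0,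
          (m.sum fun x k => (k : ℝ) * s x ε) ≤ c + η)) ∧
    ∀ (I : Type) (Z : I → VarK K) (m : I → Ω →₀ ℕ) (M : ℕ), (∀ i, IsSmoothConnected (Z i)) →
      (∀ i, IsNewformSum F (Z i) (m i)) →
      (∀ (x : Ω) (S : Finset I), (∀ i ∈ S, m i x ≠ 0) → S.card ≤ M) →
      ∀ D : I → ℝ → ℝ, (∀ i, IsTwoDeviation f (Z i) (D i)) →
      (∀ (J : Finset I) (c : I → ℝ), (∀ i ∈ J, 0 ≤ c i) →
        ((∀ i ∈ J, LowerGE (𝓝[>] 1) (D i) (c i)) ∨ ∀ i ∈ J, UpperLE (𝓝[>] 1) (D i) (-c i)) →
        ∑ i ∈ J, c i ^ 2 / ((m i).sum fun _ k => k ^ 2 : ℕ) ≤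
          M * (Module.finrank ℚ K * ρ)) ∧
      ∀ (w : ℕ) (δ : ℝ), 0 < δ →
        {i | ((m i).sum fun _ k => k ^ 2) ≤ w ∧
          (LowerGE (𝓝[>] 1) (D i) δ ∨ UpperLE (𝓝[>] 1) (D i) (-δ))}.Finite ∧
        ({i | ((m i).sum fun _ k => k ^ 2) ≤ w ∧
          (LowerGE (𝓝[>] 1) (D i) δ ∨ UpperLE (𝓝[>] 1) (D i) (-δ))}.ncard : ℝ) ≤
          2 * (M * (Module.finrank ℚ K * ρ)) * w / δ ^ 2 :=
  analytic2' hF hA hρ

end Pool.Agent.Results.MP_6090f9_nt.ModularConstantFactors
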